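import Pool.Agent.W221.NS.Stm3

/-!
Project MF (helper221), task MF-WHOLE1: separated singular points in the whole space.
-/

set_option autoImplicit false

open MeasureTheory Set Metric Filter Topology
open scoped ContDiff ENNReal

namespace Pool.Agent.W349.MF

open H459R3.NS W221.NS

theorem t_WHOLE1 (h : S_COUNT2) : S_WHOLE1 := by
  obtain ⟨C, hC, h⟩ := h
  refine ⟨C, hC, fun T E u p hT hE hS r hr hrT S hSing hsep => ?_⟩
  have hdv : ∀ t ∈ Ioo 0 T, ∀ x, dv (u t) x = 0 := fun t ht x => hS.divfree t ht x (mem_univ x)
  have hL : LSol T 0 E univ u p :=
    { openO := isOpen_univ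
      smooth_u := hS.smooth_u
      smooth_p := hS.smooth_p
      divfree := fun t ht x _ => hdv t ht x
      momentum := fun t ht x _ i => by
        have := hS.momentum t ht x (mem_univ x) i
        rw [one_mul] at this
        exact this
      en_int := fun t ht => by
        have := hS.en_int t ht
        rwa [integrableOn_univ] at this
      en := fun t ht => by
        have := hS.en t ht
        rwa [Measure.restrict_univ] at this
      dv_int := fun t ht => by
        have : (fun x => dv (u t) x ^ 2) = fun _ => (0 : ℝ) := by
          funext x; rw [hdv t ht x]; norm_num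
        rw [this]; exact integrable_zero _ _ _
      dvb := fun t ht => by
        have : (fun x => dv (u t) x ^ 2) = fun _ => (0 : ℝ) := by
          funext x; rw [hdv t ht x]; norm_num
        rw [this]; simp }
  have e : 2 * (4 * r) ^ 2 = 32 * r ^ 2 := by ring
  have key := h T 0 E univ u p le_rfl hE hL (4 * r) (by linarith) (by rw [e]; exact hrT)
    (by rw [mul_zero, zero_mul]; norm_num) S hSing (fun x _ => subset_univ _)
    (fun x hx y hy hxy => by
      have := hsep x hx y hy hxy
      linarith)
  rw [e] at key
  simp only [Measure.restrict_univ] at key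
  refine le_trans (ENNReal.ofReal_le_ofReal ?_) key
  have : (0 : ℝ) ≤ S.card := Nat.cast_nonneg _
  nlinarith

end Pool.Agent.W349.MF
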