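import Pool.Agent.W221.NS.Stm3

/-!
Project MF (helper221), task MF-OMEGA1: separated singular points in a compact subset of a domain.
-/

set_option autoImplicit false

open MeasureTheory Set Metric Filter Topology
open scoped ContDiff ENNReal Manifold

namespace Pool.Agent.W349.MF

open H459R3.NS W221.NS

theorem pd_congr' {f g : V → ℝ} {x : V} (h : f =ᶠ[𝓝 x] g) (i : Fin 3) :
    pd i f x = pd i g x := by
  unfold pd
  rw [h.fderiv_eq]

theorem pd_congr_ev' {f g : V → ℝ} {x : V} (h : f =ᶠ[𝓝 x] g) (i : Fin 3) :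
    pd i f =ᶠ[𝓝 x] pd i g := by
  filter_upwards [h.eventuallyEq_nhds] with y hy
  exact pd_congr' hy i

theorem cont_pd {f : V → ℝ} (hf : ContDiff ℝ ∞ f) (i : Fin 3) : Continuous (pd i f) := by
  unfold pd
  exact (hf.continuous_fderiv (by norm_num)).clm_apply continuous_const

/-- a cut-off function -/
theorem cutoff {K Ω : Set V} (hK : IsCompact K) (hΩ : IsOpen Ω) (hKΩ : K ⊆ Ω) :
    ∃ (ζ : V → ℝ) (δ : ℝ), 0 < δ ∧ ContDiff ℝ ∞ ζ ∧ HasCompactSupport ζ ∧ tsupport ζ ⊆ Ω ∧
      (∀ x, 0 ≤ ζ x ∧ ζ x ≤ 1) ∧ (∀ x ∈ thickening δ K, ζ x = 1) ∧ thickening δ K ⊆ Ω := by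
  obtain ⟨δ, hδ, hδΩ⟩ := hK.exists_cthickening_subset_open hΩ hKΩ
  have hd : Disjoint (thickening δ K)ᶜ (cthickening (δ / 2) K) := by
    rw [disjoint_compl_left_iff_subset]
    exact cthickening_subset_thickening' hδ (by linarith) K
  obtain ⟨f, hf0, hf1, hf⟩ := exists_contMDiffMap_zero_one_of_isClosed (n := (⊤ : ℕ∞)) 𝓘(ℝ, V)
    (isOpen_thickening (δ := δ) (E := K)).isClosed_compl
    (isClosed_cthickening (δ := δ / 2) (E := K)) hd
  have hts : tsupport (f : V → ℝ) ⊆ cthickening δ K := by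
    refine closure_minimal (fun x hx => ?_) isClosed_cthickening
    by_contra hcon
    apply hx
    exact hf0 fun h => hcon (thickening_subset_cthickening _ _ h)
  refine ⟨f, δ / 2, by linarith, f.contMDiff.contDiff, ?_, hts.trans hδΩ,
    fun x => ⟨(hf x).1, (hf x).2⟩, fun x hx => hf1 (thickening_subset_cthickening _ _ hx),
    (thickening_mono (by linarith) K).trans ((thickening_subset_cthickening _ _).trans hδΩ)⟩
  exact (hK.cthickening (r := δ)).of_isClosed_subset (isClosed_tsupport _) hts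

theorem pd_bd {ζ : V → ℝ} (hζ : ContDiff ℝ ∞ ζ) (hc : HasCompactSupport ζ) :
    ∃ B : ℝ, 0 ≤ B ∧ ∀ (i : Fin 3) (x : V), |pd i ζ x| ≤ B := by
  have h1 : ∀ i : Fin 3, ∃ B : ℝ, ∀ x : V, ‖pd i ζ x‖ ≤ B := fun i =>
    (cont_pd hζ i).bounded_above_of_compact_support (hc.fderiv_apply ℝ (Pi.single i 1))
  choose B hB using h1
  refine ⟨∑ i, |B i|, Finset.sum_nonneg fun i _ => abs_nonneg _, fun i x => ?_⟩
  have h2 := hB i x
  rw [Real.norm_eq_abs] at h2
  refine (h2.trans (le_abs_self _)).trans ?_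
  exact Finset.single_le_sum (f := fun i => |B i|) (fun _ _ => abs_nonneg _) (Finset.mem_univ i)

theorem sum3_sq' (a b : Fin 3 → ℝ) (K : ℝ) (ha : ∀ i, |a i| ≤ K) :
    (∑ i, a i * b i) ^ 2 ≤ 3 * K ^ 2 * ∑ i, b i ^ 2 := by
  have h1 := Finset.sum_mul_sq_le_sq_mul_sq Finset.univ a b
  have h2 : ∑ i, a i ^ 2 ≤ 3 * K ^ 2 := by
    have h3 : ∀ i ∈ (Finset.univ : Finset (Fin 3)), a i ^ 2 ≤ K ^ 2 := by
      intro i _
      rw [← sq_abs]
      exact pow_le_pow_left₀ (abs_nonneg _) (ha i) 2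
    refine (Finset.sum_le_sum h3).trans ?_
    simp
  exact h1.trans (mul_le_mul_of_nonneg_right h2 (Finset.sum_nonneg fun i _ => sq_nonneg _))

theorem nsq_nonneg' (v : V → V) (x : V) : 0 ≤ nsq v x :=
  Finset.sum_nonneg fun i _ => sq_nonneg _

section
variable {T E : ℝ} {Ω O : Set V} {u : ℝ → V → V} {p : ℝ → V → ℝ} {ζ : V → ℝ}

/-- a cut-off of a function which is smooth on a domain -/
theorem cut_smooth_on {F : Type} [NormedAddCommGroup F] [NormedSpace ℝ F] {w : ℝ → V → F}
    (hΩ : IsOpen Ω) (hw : ContDiffOn ℝ ∞ (fun z : ℝ × V => w z.1 z.2) (Ioo 0 T ×ˢ Ω))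
    (hζ : ContDiff ℝ ∞ ζ) (hts : tsupport ζ ⊆ Ω) :
    ContDiffOn ℝ ∞ (fun z : ℝ × V => ζ z.2 • w z.1 z.2) (Ioo 0 T ×ˢ univ) := by
  rintro ⟨t, x⟩ ⟨ht, -⟩
  by_cases hx : x ∈ Ω
  · have h1 : (Ioo 0 T ×ˢ Ω) ∈ 𝓝 (t, x) := (isOpen_Ioo.prod hΩ).mem_nhds ⟨ht, hx⟩
    exact ((hζ.comp contDiff_snd).contDiffAt.smul (hw.contDiffAt h1)).contDiffWithinAt
  · have hx' : x ∉ tsupport ζ := fun h => hx (hts h)
    have h1 : ∀ᶠ y in 𝓝 x, ζ y = 0 := notMem_tsupport_iff_eventuallyEq.1 hx'
    have h2 : ∀ᶠ z : ℝ × V in 𝓝 (t, x), ζ z.2 = 0 :=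
      (continuous_snd.tendsto (t, x)).eventually h1
    have h3 : (fun z : ℝ × V => ζ z.2 • w z.1 z.2) =ᶠ[𝓝 (t, x)] fun _ => (0 : F) := by
      filter_upwards [h2] with z hz
      rw [hz, zero_smul]
    exact (contDiffAt_const.congr_of_eventuallyEq h3).contDiffWithinAt

/-- a slice of a smooth function -/
theorem slice_smooth {F : Type} [NormedAddCommGroup F] [NormedSpace ℝ F] {w : ℝ → V → F}
    (hw : ContDiffOn ℝ ∞ (fun z : ℝ × V => w z.1 z.2) (Ioo 0 T ×ˢ univ)) {t : ℝ}
    (ht : t ∈ Ioo 0 T) : ContDiff ℝ ∞ (w t) := by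
  rw [contDiff_iff_contDiffAt]
  intro x
  have h1 : (Ioo 0 T ×ˢ (univ : Set V)) ∈ 𝓝 (t, x) :=
    (isOpen_Ioo.prod isOpen_univ).mem_nhds ⟨ht, mem_univ _⟩
  have h2 : ContDiffAt ℝ ∞ (fun y : V => (t, y)) x := contDiffAt_const.prodMk contDiffAt_id
  exact (hw.contDiffAt h1).comp x h2

/-- the divergence of the cut-off field -/
theorem dv_cut (hS : OSol 1 T E Ω u p) (hζ : ContDiff ℝ ∞ ζ) (hts : tsupport ζ ⊆ Ω) {t : ℝ}
    (ht : t ∈ Ioo 0 T) (x : V) : dv (fun y => ζ y • u t y) x =
      Ω.indicator (fun x => ∑ i, pd i ζ x * u t x i) x := by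
  by_cases hx : x ∈ Ω
  · rw [indicator_of_mem hx]
    have hu : ContDiffAt ℝ ∞ (u t) x := by
      have h1 : (Ioo 0 T ×ˢ Ω) ∈ 𝓝 (t, x) := (isOpen_Ioo.prod hS.openO).mem_nhds ⟨ht, hx⟩
      have h2 : ContDiffAt ℝ ∞ (fun y : V => (t, y)) x := contDiffAt_const.prodMk contDiffAt_id
      exact (hS.smooth_u.contDiffAt h1).comp x h2
    unfold dv
    have h1 : ∀ i, pd i (fun y => (ζ y • u t y) i) x =
        pd i ζ x * u t x i + ζ x * pd i (fun y => u t y i) x := by
      intro i
      have hui : DifferentiableAt ℝ (fun y => u t y i) x :=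
        ((contDiffAt_pi.1 hu i).differentiableAt (by norm_num))
      have hζd : DifferentiableAt ℝ ζ x := (hζ.differentiable (by norm_num)) x
      show fderiv ℝ (fun y => ζ y * u t y i) x (Pi.single i 1) = _
      unfold pd
      rw [fderiv_fun_mul hζd hui]
      simp only [add_apply, smul_apply, smul_eq_mul]
      ring
    rw [Finset.sum_congr rfl fun i _ => h1 i, Finset.sum_add_distrib, ← Finset.mul_sum,
      hS.divfree t ht x hx, mul_zero, add_zero]
  · rw [indicator_of_notMem hx]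
    have hx' : x ∉ tsupport ζ := fun h => hx (hts h)
    have h1 : ∀ᶠ y in 𝓝 x, ζ y = 0 := notMem_tsupport_iff_eventuallyEq.1 hx'
    unfold dv
    refine Finset.sum_eq_zero fun i _ => ?_
    have h2 : (fun y => (ζ y • u t y) i) =ᶠ[𝓝 x] fun _ => (0 : ℝ) := by
      filter_upwards [h1] with y hy
      rw [hy, zero_smul]; rfl
    rw [pd_congr' h2]
    unfold pd
    simp

/-- the cut-off of a solution -/
theorem cut_sol (hE : 0 ≤ E) (hS : OSol 1 T E Ω u p) (hζ : ContDiff ℝ ∞ ζ)
    (hc : HasCompactSupport ζ) (hts : tsupport ζ ⊆ Ω) (h01 : ∀ x, 0 ≤ ζ x ∧ ζ x ≤ 1)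
    (hO : IsOpen O) (hOΩ : O ⊆ Ω) (h1 : ∀ x ∈ O, ζ x = 1) {B : ℝ} (hB0 : 0 ≤ B)
    (hB : ∀ (i : Fin 3) (x : V), |pd i ζ x| ≤ B) :
    LSol T (2 * B * E) E O (fun t x => ζ x • u t x) (fun t x => ζ x * p t x) := by
  have hsu := cut_smooth_on hS.openO hS.smooth_u hζ hts
  have hsp := cut_smooth_on hS.openO hS.smooth_p hζ hts
  have heq : ∀ t, ∀ x ∈ O, (fun y => ζ y • u t y) =ᶠ[𝓝 x] u t := by
    intro t x hx
    filter_upwards [hO.mem_nhds hx] with y hy
    rw [h1 y hy, one_smul]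
  have heqi : ∀ t, ∀ x ∈ O, ∀ i, (fun y => (ζ y • u t y) i) =ᶠ[𝓝 x] fun y => u t y i := by
    intro t x hx i
    filter_upwards [heq t x hx] with y hy
    rw [hy]
  have heqp : ∀ t, ∀ x ∈ O, (fun y => ζ y * p t y) =ᶠ[𝓝 x] p t := by
    intro t x hx
    filter_upwards [hO.mem_nhds hx] with y hy
    rw [h1 y hy, one_mul]
  have hcs : ∀ t ∈ Ioo 0 T, ContDiff ℝ ∞ (fun x => ζ x • u t x) := fun t ht =>
    slice_smooth (w := fun t x => ζ x • u t x) hsu ht
  have hcc : ∀ t, HasCompactSupport (fun x => ζ x • u t x) := fun t => hc.smul_right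
  have hnle : ∀ t x, nsq (fun y => ζ y • u t y) x ≤ Ω.indicator (nsq (u t)) x := by
    intro t x
    have e : nsq (fun y => ζ y • u t y) x = ζ x ^ 2 * nsq (u t) x := by
      unfold nsq
      rw [Finset.mul_sum]
      refine Finset.sum_congr rfl fun i _ => ?_
      show (ζ x * u t x i) ^ 2 = _
      ring
    rw [e]
    by_cases hx : x ∈ Ω
    · rw [indicator_of_mem hx]
      have h2 : ζ x ^ 2 ≤ 1 := pow_le_one₀ (h01 x).1 (h01 x).2
      exact mul_le_of_le_one_left (nsq_nonneg' _ _) h2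
    · rw [indicator_of_notMem hx]
      have : ζ x = 0 := image_eq_zero_of_notMem_tsupport fun h => hx (hts h)
      rw [this]; norm_num
  have hni : ∀ t ∈ Ioo 0 T, Integrable (Ω.indicator (nsq (u t))) := fun t ht =>
    (hS.en_int t ht).integrable_indicator hS.openO.measurableSet
  have hen : ∀ t ∈ Ioo 0 T, ∫ x, Ω.indicator (nsq (u t)) x ≤ E ^ 2 := fun t ht => by
    rw [integral_indicator hS.openO.measurableSet]
    exact hS.en t ht
  have hnint : ∀ t ∈ Ioo 0 T, Integrable (nsq (fun y => ζ y • u t y)) := by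
    intro t ht
    have hcont := (hcs t ht).continuous
    refine Continuous.integrable_of_hasCompactSupport ?_ ?_
    · unfold nsq
      exact continuous_finsetSum _ fun i _ => ((continuous_apply i).comp hcont).pow 2
    · refine (hcc t).mono' ?_
      intro x hx
      by_contra hcon
      apply hx
      have h2 := image_eq_zero_of_notMem_tsupport (f := fun x => ζ x • u t x) hcon
      have h3 : ζ x • u t x = 0 := h2
      show nsq (fun y => ζ y • u t y) x = 0
      unfold nsq
      simp only [h3]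
      simp
  have hdint : ∀ t ∈ Ioo 0 T, Integrable (fun x => dv (fun y => ζ y • u t y) x ^ 2) := by
    intro t ht
    have hci : ∀ i, ContDiff ℝ ∞ (fun y => (ζ y • u t y) i) := fun i => contDiff_pi.1 (hcs t ht) i
    have hcd : Continuous (dv (fun y => ζ y • u t y)) := by
      unfold dv
      exact continuous_finsetSum _ fun i _ => cont_pd (hci i) i
    refine (hcd.pow 2).integrable_of_hasCompactSupport ?_
    refine HasCompactSupport.intro hc fun x hx => ?_
    have h2 : ∀ᶠ y in 𝓝 x, ζ y = 0 := notMem_tsupport_iff_eventuallyEq.1 hx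
    have h3 : dv (fun y => ζ y • u t y) x = 0 := by
      unfold dv
      refine Finset.sum_eq_zero fun i _ => ?_
      have h4 : (fun y => (ζ y • u t y) i) =ᶠ[𝓝 x] fun _ => (0 : ℝ) := by
        filter_upwards [h2] with y hy
        rw [hy, zero_smul]; rfl
      rw [pd_congr' h4]
      unfold pd
      simp
    show dv (fun y => ζ y • u t y) x ^ 2 = 0
    rw [h3]; norm_num
  exact
    { openO := hO
      smooth_u := hsu
      smooth_p := hsp
      divfree := fun t ht x hx => by
        rw [dv_cut hS hζ hts ht x, indicator_of_mem (hOΩ hx)]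
        refine Finset.sum_eq_zero fun i _ => ?_
        have h2 : ζ =ᶠ[𝓝 x] fun _ => (1 : ℝ) := by
          filter_upwards [hO.mem_nhds hx] with y hy
          exact h1 y hy
        rw [pd_congr' h2]
        unfold pd
        simp
      momentum := fun t ht x hx i => by
        have hm := hS.momentum t ht x (hOΩ hx) i
        rw [one_mul] at hm
        have e1 : (fun s => (ζ x • u s x) i) = fun s => u s x i := by
          funext s; rw [h1 x hx, one_smul]
        have e2 : adv (fun y => ζ y • u t y) (fun y => (ζ y • u t y) i) x =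
            adv (u t) (fun y => u t y i) x := by
          unfold adv
          refine Finset.sum_congr rfl fun j _ => ?_
          rw [pd_congr' (heqi t x hx i) j]
          simp only [h1 x hx, one_smul]
        have e3 : lap (fun y => (ζ y • u t y) i) x = lap (fun y => u t y i) x := by
          unfold lap
          exact Finset.sum_congr rfl fun j _ => pd_congr' (pd_congr_ev' (heqi t x hx i) j) j
        have e4 : pd i (fun y => ζ y * p t y) x = pd i (p t) x := pd_congr' (heqp t x hx) i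
        show deriv (fun s => (ζ x • u s x) i) t + adv (fun y => ζ y • u t y)
          (fun y => (ζ y • u t y) i) x = lap (fun y => (ζ y • u t y) i) x -
            pd i (fun y => ζ y * p t y) x
        rw [e1, e2, e3, e4]
        exact hm
      en_int := hnint
      en := fun t ht => (integral_mono (hnint t ht) (hni t ht) (hnle t)).trans (hen t ht)
      dv_int := hdint
      dvb := fun t ht => by
        have h2 : ∀ x, dv (fun y => ζ y • u t y) x ^ 2 ≤
            3 * B ^ 2 * Ω.indicator (nsq (u t)) x := by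
          intro x
          rw [dv_cut hS hζ hts ht x]
          by_cases hx : x ∈ Ω
          · rw [indicator_of_mem hx, indicator_of_mem hx]
            exact sum3_sq' _ _ B fun i => hB i x
          · rw [indicator_of_notMem hx, indicator_of_notMem hx]
            norm_num
        have h3 : ∫ x, dv (fun y => ζ y • u t y) x ^ 2 ≤
            ∫ x, 3 * B ^ 2 * Ω.indicator (nsq (u t)) x :=
          integral_mono (hdint t ht) ((hni t ht).const_mul _) h2
        rw [integral_const_mul] at h3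
        have h4 := hen t ht
        have h5 : 3 * B ^ 2 * ∫ x, Ω.indicator (nsq (u t)) x ≤ 3 * B ^ 2 * E ^ 2 :=
          mul_le_mul_of_nonneg_left h4 (by positivity)
        have h6 : 3 * B ^ 2 * E ^ 2 ≤ (2 * B * E) ^ 2 := by
          have : 0 ≤ B ^ 2 * E ^ 2 := by positivity
          nlinarith
        exact h3.trans (h5.trans h6) }

end

theorem t_OMEGA1 (h : S_COUNT2) : S_OMEGA1 := by
  obtain ⟨C, hC, h⟩ := h
  refine ⟨C, hC, fun T E Ω u p hT hE hS K hK hKΩ => ?_⟩
  obtain ⟨ζ, δ, hδ, hζ, hc, hts, h01, h1, hOΩ⟩ := cutoff hK hS.openO hKΩ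
  obtain ⟨B, hB0, hB⟩ := pd_bd hζ hc
  set O : Set V := thickening δ K with hO
  have hOo : IsOpen O := isOpen_thickening
  have hL := cut_sol hE hS hζ hc hts h01 hOo hOΩ h1 hB0 hB
  set κ : ℝ := 2 * B * E with hκ
  have hκ0 : 0 ≤ κ := by positivity
  -- small radii
  have c1 : Continuous fun r : ℝ => 2 * (4 * r) ^ 2 := by fun_prop
  have c2 : Continuous fun r : ℝ => C * κ * √(4 * r) := by fun_prop
  have c3 : Continuous fun r : ℝ => C * (4 * r + E * √(4 * r)) := by fun_prop
  have l1 : ∀ᶠ r : ℝ in 𝓝 0, 2 * (4 * r) ^ 2 < T := by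
    have := c1.tendsto 0
    simp only [mul_zero, ne_eq, OfNat.ofNat_ne_zero, not_false_eq_true, zero_pow] at this
    exact this.eventually_lt_const hT
  have l2 : ∀ᶠ r : ℝ in 𝓝 0, C * κ * √(4 * r) < 1 := by
    have := c2.tendsto 0
    simp only [mul_zero, Real.sqrt_zero] at this
    exact this.eventually_lt_const one_pos
  have l3 : ∀ᶠ r : ℝ in 𝓝 0, C * (4 * r + E * √(4 * r)) < δ := by
    have := c3.tendsto 0
    simp only [mul_zero, Real.sqrt_zero, add_zero] at this
    exact this.eventually_lt_const hδ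
  obtain ⟨r₀, hr₀, hr⟩ := Metric.eventually_nhds_iff.1 (l1.and (l2.and l3))
  refine ⟨r₀, hr₀, fun r hr0 hrr S hSK hsep => ?_⟩
  obtain ⟨m1, m2, m3⟩ := hr (show dist r 0 < r₀ by
    rw [Real.dist_eq, sub_zero, abs_of_pos hr0]; exact hrr)
  have hSing : ∀ x ∈ S, Sing T (fun t x => ζ x • u t x) x := by
    intro x hx ε hε M
    have hxO : x ∈ O := self_subset_thickening hδ K (hSK x hx).1
    obtain ⟨ρ, hρ, hρO⟩ := Metric.isOpen_iff.1 hOo x hxO
    obtain ⟨t, ht, y, hy, hM⟩ := (hSK x hx).2 (min ε ρ) (lt_min hε hρ) M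
    refine ⟨t, ⟨by linarith [ht.1, min_le_left ε ρ], ht.2⟩, y,
      ball_subset_ball (min_le_left _ _) hy, ?_⟩
    have hyO : y ∈ O := hρO (ball_subset_ball (min_le_right _ _) hy)
    show M < ‖ζ y • u t y‖
    rw [h1 y hyO, one_smul]
    exact hM
  have e : 2 * (4 * r) ^ 2 = 32 * r ^ 2 := by ring
  have key := h T κ E O _ _ hκ0 hE hL (4 * r) (by linarith) m1 m2.le S hSing
    (fun x hx => (ball_subset_ball m3.le).trans (ball_subset_thickening (hSK x hx).1 δ))
    (fun x hx y hy hxy => by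
      have := hsep x hx y hy hxy
      linarith)
  rw [e] at key
  have hcard : (0 : ℝ) ≤ S.card := Nat.cast_nonneg _
  refine (ENNReal.ofReal_le_ofReal (show (S.card : ℝ) * r ≤ S.card * (4 * r) by nlinarith)).trans
    (key.trans ?_)
  refine mul_le_mul_right (lintegral_mono fun τ => ?_) _
  have hg : ∀ y ∈ O, gsq (fun x => ζ x • u τ x) y = gsq (u τ) y := by
    intro y hy
    unfold gsq
    refine Finset.sum_congr rfl fun i _ => Finset.sum_congr rfl fun j _ => ?_
    have h2 : (fun y => (ζ y • u τ y) i) =ᶠ[𝓝 y] fun y => u τ y i := by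
      filter_upwards [hOo.mem_nhds hy] with z hz
      rw [h1 z hz, one_smul]
    rw [pd_congr' h2 j]
  have h3 : ∫⁻ y in O, ENNReal.ofReal (gsq (fun x => ζ x • u τ x) y) =
      ∫⁻ y in O, ENNReal.ofReal (gsq (u τ) y) :=
    setLIntegral_congr_fun hOo.measurableSet fun y hy => by
      simp only [hg y hy]
  rw [h3]
  exact lintegral_mono_set hOΩ

end Pool.Agent.W349.MF
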